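import Mathlib

set_option autoImplicit false

namespace Pool.Agent.Results.MP_42b70f_co.Counter

def adj (a b : ℕ) : Bool := Nat.testBit 0x500089081240a82554020a68250442a10146249015100065440512980881111a (16 * a + b)

def G0 : SimpleGraph (Fin 16) where
  Adj a b := adj a b = true
  symm := ⟨by decide +kernel⟩
  loopless := ⟨by decide +kernel⟩

instance : DecidableRel G0.Adj := fun a b => inferInstanceAs (Decidable (adj a b = true))

def cyc : List (List (ℕ × ℕ × ℕ × ℕ)) :=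
  [[],[],[],[],[],[(0,3,2,4)],[],[],[(2,4,6,7)],[(0,4,5,8),(0,1,7,8)],[(2,7,8,9)],[(2,3,10,9),(4,5,10,6),(5,8,9,10)],[],[(0,3,2,12),(0,4,2,12),(0,4,5,12),(0,8,5,12),(0,1,11,12),(2,4,5,12),(5,10,11,12)],[(2,9,13,12),(6,10,9,13)],[(0,3,14,8),(3,10,11,14)],[(11,12,15,14)]]

def leaf (i m : ℕ) : Bool := (cyc.getD i []).any fun q =>
  (m.testBit q.1 != m.testBit q.2.2.1) && (m.testBit q.2.1 != m.testBit q.2.2.2)

def go : ℕ → ℕ → ℕ → ℕ → Bool
  | 0, i, m, k => k != 8 || leaf i m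
  | f + 1, i, m, k => Nat.blt 8 k || Nat.blt (k + f + 1) 8 || leaf i m ||
      (go f (i + 1) m k && go f (i + 1) (m + 2 ^ i) (k + 1))

def mk (p : ℕ → Bool) : ℕ → ℕ
  | 0 => 0
  | n + 1 => mk p n + if p n then 2 ^ n else 0

theorem mk_lt (p : ℕ → Bool) (n : ℕ) : mk p n < 2 ^ n := by
  induction n with
  | zero => simp [mk]
  | succ n ih => rw [mk]; split_ifs <;> omega

theorem mk_bit (p : ℕ → Bool) (n j : ℕ) (h : j < n) : (mk p n).testBit j = p j := by
  induction n with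
  | zero => omega
  | succ n ih =>
    rw [mk]
    rcases (Nat.lt_succ_iff.mp h).eq_or_lt with rfl | h
    · split_ifs with e
      · rw [add_comm, Nat.testBit_two_pow_add_eq, Nat.testBit_lt_two_pow (mk_lt p j), e]; rfl
      · simp [Nat.testBit_lt_two_pow (mk_lt p j), e]
    · split_ifs with e
      · rw [add_comm, Nat.testBit_two_pow_add_gt h, ih h]
      · simpa using ih h

theorem go_spec (p : ℕ → Bool) (f : ℕ) : ∀ i, go f i (mk p i) (Nat.count (p · = true) i) = true →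
    Nat.count (p · = true) (i + f) = 8 → ∃ j, leaf j (mk p j) = true := by
  induction f with
  | zero => exact fun i h e => ⟨i, by simpa [go, show Nat.count (p · = true) i = 8 from e] using h⟩
  | succ f ih =>
    intro i h e
    have h1 := Nat.count_add (p := (p · = true)) i (f + 1)
    have h2 := Nat.count_le (p := fun k => p (i + k) = true) (n := f + 1)
    simp only [go, Bool.or_eq_true, Bool.and_eq_true, Nat.blt_eq] at h
    rcases h with ((h | h) | h) | h
    · omega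
    · omega
    · exact ⟨i, h⟩
    refine ih (i + 1) ?_ (by rw [← e]; congr 1; omega)
    rw [mk, Nat.count_succ]
    split_ifs
    · exact h.2
    · exact h.1

theorem go_ok : go 16 0 0 0 = true := by decide +kernel

theorem result : ∃ (V : Type) (_ : Finite V) (G : SimpleGraph V) (M : G.Subgraph),
    G.CliqueFree 3 ∧ M.IsPerfectMatching ∧
    (∀ u v x y, M.Adj u v → M.Adj x y → s(u, v) ≠ s(x, y) → G.Adj u x →
      ¬ G.Adj u y ∧ ¬ G.Adj v x ∧ ¬ G.Adj v y) ∧
    ∀ A : Set V, 2 * A.ncard = Nat.card V → ∃ a b c d, G.Adj a b ∧ G.Adj b c ∧ G.Adj c d ∧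
      G.Adj d a ∧ a ≠ c ∧ b ≠ d ∧ ¬ (a ∈ A ↔ c ∈ A) ∧ ¬ (b ∈ A ↔ d ∈ A) := by
  classical
  let t : Fin 16 → Fin 16 := fun a => ⟨a.val ^^^ 1, by revert a; decide⟩
  have ht : ∀ a, t (t a) = a ∧ G0.Adj a (t a) := by decide +kernel
  refine ⟨Fin 16, inferInstance, G0, ⟨Set.univ, fun a b => b = t a, fun h => h ▸ (ht _).2,
    fun _ => trivial, ⟨fun a b h => by rw [h, (ht _).1]⟩⟩, ?_, ⟨?_, fun _ => trivial⟩, ?_, ?_⟩
  · intro s hs
    obtain ⟨a, b, c, h1, h2, h3, -⟩ := SimpleGraph.is3Clique_iff.mp hs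
    exact (by decide +kernel : ∀ a b c, G0.Adj a b → G0.Adj a c → ¬ G0.Adj b c) a b c h1 h2 h3
  · exact fun a _ => ⟨t a, rfl, fun _ h => h⟩
  · rintro u _ x _ rfl rfl hne h
    refine (by decide +kernel : ∀ u x : Fin 16, G0.Adj u x → x ≠ t u →
      ¬ G0.Adj u (t x) ∧ ¬ G0.Adj (t u) x ∧ ¬ G0.Adj (t u) (t x)) u x h ?_
    rintro rfl
    exact hne (by rw [(ht u).1, Sym2.eq_swap])
  · intro A hA
    let p : ℕ → Bool := fun i => decide (∃ a ∈ A, a.val = i)
    have hp : ∀ a : Fin 16, p a = decide (a ∈ A) := fun a => by simp [p, Fin.val_inj]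
    have hc : Nat.count (p · = true) (0 + 16) = 8 := by
      have : A.ncard = 8 := by simp at hA; omega
      rw [Nat.count_eq_card_filter_range, ← this, ← Set.ncard_coe_finset,
        ← Set.ncard_image_of_injective A Fin.val_injective]
      congr 1
      ext i
      simp only [p, Finset.coe_filter, Finset.mem_range, decide_eq_true_eq, Set.mem_image,
        Set.mem_ofPred_eq]
      exact and_iff_right_of_imp fun ⟨a, _, e⟩ => e ▸ a.2
    obtain ⟨j, h⟩ := go_spec p 16 0 go_ok hc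
    simp only [leaf, List.any_eq_true, Bool.and_eq_true, bne_iff_ne] at h
    obtain ⟨⟨a, b, c, d⟩, hq, h1, h2⟩ := h
    have hj : j < 17 := by
      by_contra hj
      rw [List.getD_eq_default _ _ (by simpa [cyc] using hj)] at hq
      simp at hq
    have := List.all_eq_true.mp ((by decide +kernel : ∀ j < 17, ((cyc.getD j []).all fun q =>
      adj q.1 q.2.1 &&
      adj q.2.1 q.2.2.1 && adj q.2.2.1 q.2.2.2 && adj q.2.2.2 q.1 && q.1 != q.2.2.1 &&
      q.2.1 != q.2.2.2 && decide (q.1 < j) && decide (q.2.1 < j) && decide (q.2.2.1 < j) &&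
      decide (q.2.2.2 < j)) = true) j hj) _ hq
    simp only [Bool.and_eq_true, bne_iff_ne, decide_eq_true_eq, and_assoc] at this
    obtain ⟨a1, a2, a3, a4, a5, a6, b1, b2, b3, b4⟩ := this
    have c1 : a < 16 := by omega
    have c2 : b < 16 := by omega
    have c3 : c < 16 := by omega
    have c4 : d < 16 := by omega
    rw [mk_bit p _ _ b1, mk_bit p _ _ b3, hp ⟨a, c1⟩, hp ⟨c, c3⟩] at h1
    rw [mk_bit p _ _ b2, mk_bit p _ _ b4, hp ⟨b, c2⟩, hp ⟨d, c4⟩] at h2
    exact ⟨⟨a, c1⟩, ⟨b, c2⟩, ⟨c, c3⟩, ⟨d, c4⟩, a1, a2, a3, a4, fun e => a5 (congrArg Fin.val e),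
      fun e => a6 (congrArg Fin.val e), by simpa using h1, by simpa using h2⟩

end Pool.Agent.Results.MP_42b70f_co.Counter
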